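import Pool.Agent.BEF.Stmts

/-!
# Squad BEF (MP_be01ff_an), row CHA: the chain rule
-/

set_option autoImplicit false

namespace Pool.Agent.BEF.H43

open Set Filter Topology MeasureTheory Pool.Agent.BEF
open scoped InnerProductSpace
open Pool.Agent.BE01

section
variable {κ : Type} [Fintype κ] {M : Type} [NormedAddCommGroup M] [NormedSpace ℝ M]

theorem diff_eval (f : MvPolynomial κ ℝ) :
    Differentiable ℝ (fun z : κ → ℝ => MvPolynomial.eval z f) := by
  induction f using MvPolynomial.induction_on with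
  | C a =>
    simp only [MvPolynomial.eval_C]
    exact differentiable_const a
  | add p q hp hq =>
    simp only [map_add]
    exact hp.add hq
  | mul_X p i hp =>
    simp only [map_mul, MvPolynomial.eval_X]
    exact hp.mul (differentiable_apply i)

/-- differentiability of the function of two variables -/
theorem diff_GE {d : ℕ} {P : ℝ → (κ → ℝ) → M} (hP : P ∈ GE κ M d) :
    Differentiable ℝ (fun s : ℝ × (κ → ℝ) => P s.1 s.2) := by
  let W : Submodule ℝ (ℝ → (κ → ℝ) → M) :=
    { carrier := {P | Differentiable ℝ (fun s : ℝ × (κ → ℝ) => P s.1 s.2)}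
      zero_mem' := differentiable_const (0 : M)
      add_mem' := fun {P Q} hP hQ => hP.add hQ
      smul_mem' := fun c P hP => hP.const_smul c }
  have hW : GE κ M d ≤ W := by
    unfold GE
    refine iSup_le fun k => ?_
    unfold HG
    refine Submodule.span_le.2 ?_
    rintro P ⟨f, j, i, m, -, -, h | h⟩
    · subst h
      change Differentiable ℝ (fun s : ℝ × (κ → ℝ) =>
        (MvPolynomial.eval s.2 f * Real.cos (j * s.1)) • m)
      refine Differentiable.smul_const ?_ m
      refine ((diff_eval f).comp differentiable_snd).mul ?_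
      exact Real.differentiable_cos.comp (differentiable_fst.const_mul _)
    · subst h
      change Differentiable ℝ (fun s : ℝ × (κ → ℝ) =>
        (MvPolynomial.eval s.2 f * Real.sin (j * s.1)) • m)
      refine Differentiable.smul_const ?_ m
      refine ((diff_eval f).comp differentiable_snd).mul ?_
      exact Real.differentiable_sin.comp (differentiable_fst.const_mul _)
  exact hW hP

end

theorem cha : ChaStmt := by
  intro κ _ M _ _ d P ω F ψ z t hP hψ hz
  have hG := diff_GE hP
  set G : ℝ × (κ → ℝ) → M := fun s => P s.1 s.2 with hGdef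
  have h1 := (hG (ψ t, z t)).hasFDerivAt.comp_hasDerivAt t (hψ.prodMk hz)
  have h2 : fderiv ℝ G (ψ t, z t) (ω, vf F (z t)) = DF ω F P (ψ t) (z t) := by
    have h3 : (ω, vf F (z t)) = ω • ((1 : ℝ), (0 : κ → ℝ)) + ((0 : ℝ), vf F (z t)) := by
      simp
    have e1 : fderiv ℝ G (ψ t, z t) ((1 : ℝ), (0 : κ → ℝ)) = deriv (fun s => P s (z t)) (ψ t) := by
      have h4 : HasDerivAt (fun s : ℝ => ((s, z t) : ℝ × (κ → ℝ))) (1, 0) (ψ t) :=
        (hasDerivAt_id (ψ t)).prodMk (hasDerivAt_const (ψ t) (z t))
      have h5 := (hG (ψ t, z t)).hasFDerivAt.comp_hasDerivAt (ψ t) h4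
      exact h5.deriv.symm
    have e2 : fderiv ℝ G (ψ t, z t) ((0 : ℝ), vf F (z t)) =
        fderiv ℝ (P (ψ t)) (z t) (vf F (z t)) := by
      have h4 : HasFDerivAt (fun y : κ → ℝ => ((ψ t, y) : ℝ × (κ → ℝ)))
          ((0 : (κ → ℝ) →L[ℝ] ℝ).prod (ContinuousLinearMap.id ℝ (κ → ℝ))) (z t) :=
        (hasFDerivAt_const (ψ t) (z t)).prodMk (hasFDerivAt_id (z t))
      have h5 := (hG (ψ t, z t)).hasFDerivAt.comp (z t) h4
      have h6 : fderiv ℝ (P (ψ t)) (z t) = _ := h5.fderiv
      rw [h6]
      rfl
    rw [h3, map_add, map_smul, e1, e2]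
    rfl
  rw [← h2]
  exact h1

end Pool.Agent.BEF.H43
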